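import Pool.Agent.Helper12.CX.Defs2
import Pool.Agent.Helper42.CX.THA

/-!
Where the discriminant is negative, `W_B` is elliptic.
-/

set_option autoImplicit false
noncomputable section
namespace Pool.Agent.Helper6.MONO

open Polynomial

/-- a monic cubic has three roots -/
theorem thb_roots (a b c : ℂ) : ∃ u v w : ℂ, u + v + w = a ∧ u * v + v * w + w * u = b ∧
    u * v * w = c := by
  have hd : 0 < (X ^ 3 - C a * X ^ 2 + C b * X - C c : ℂ[X]).degree := by
    have : (X ^ 3 - C a * X ^ 2 + C b * X - C c : ℂ[X]).degree = 3 := by compute_degree!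
    rw [this]; norm_num
  obtain ⟨u, hu⟩ := Complex.exists_root hd
  have hu' : u ^ 3 - a * u ^ 2 + b * u - c = 0 := by
    have h := hu
    simp only [IsRoot.def, eval_sub, eval_add, eval_mul, eval_pow, eval_X, eval_C] at h
    exact h
  obtain ⟨s, hs⟩ := IsAlgClosed.exists_pow_nat_eq ((a - u) ^ 2 - 4 * (b - u * (a - u)))
    (n := 2) (by norm_num)
  refine ⟨u, (a - u + s) / 2, (a - u - s) / 2, by ring, ?_, ?_⟩
  · linear_combination (-1 / 4 : ℂ) * hs
  · linear_combination (-u / 4 : ℂ) * hs + hu'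

/-- the discriminant -/
theorem thb_disc (u v w T T' : ℂ) (h1 : u + v + w = T) (h2 : u * v + v * w + w * u = -T')
    (h3 : u * v * w = -1) :
    ((u - v) * (v - w) * (w - u)) ^ 2
      = (T * T') ^ 2 + 4 * (T ^ 3 + T' ^ 3) + 18 * (T * T') - 27 := by
  have e : ((u - v) * (v - w) * (w - u)) ^ 2
      = (u + v + w) ^ 2 * (u * v + v * w + w * u) ^ 2 - 4 * (u * v + v * w + w * u) ^ 3
        - 4 * (u + v + w) ^ 3 * (u * v * w)
        + 18 * (u + v + w) * (u * v + v * w + w * u) * (u * v * w)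
        - 27 * (u * v * w) ^ 2 := by ring
  rw [e, h1, h2, h3]
  ring

theorem thb_root_of (u v w t : ℂ) (h : (t - u) * (t - v) * (t - w) = 0) : t = u ∨ t = v ∨ t = w := by
  rcases mul_eq_zero.mp h with h | h
  · rcases mul_eq_zero.mp h with h | h
    · exact Or.inl (sub_eq_zero.mp h)
    · exact Or.inr (Or.inl (sub_eq_zero.mp h))
  · exact Or.inr (Or.inr (sub_eq_zero.mp h))

/-- a root off the unit circle whose mirror image is another root makes the product real -/
theorem thb_real (u v w : ℂ) (hu : u ≠ 0) (hv : v * star u = 1) (h3 : u * v * w = -1) :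
    star ((u - v) * (v - w) * (w - u)) = (u - v) * (v - w) * (w - u) := by
  have hv0 : v ≠ 0 := fun h => by rw [h, zero_mul] at hv; exact one_ne_zero hv.symm
  have hw0 : w ≠ 0 := fun h => by
    rw [h, mul_zero] at h3
    norm_num at h3
  have su : star u = 1 / v := by
    field_simp
    linear_combination hv
  have sv : star v = 1 / u := by
    have h := congrArg star hv
    rw [star_mul', star_star, star_one] at h
    field_simp
    exact h
  have sw : star w = 1 / w := by
    have h := congrArg star h3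
    rw [star_mul', star_mul', su, sv, star_neg, star_one] at h
    have h' : star w = -(u * v) := by
      field_simp at h
      linear_combination h
    rw [h']
    field_simp
    linear_combination -h3
  rw [star_mul', star_mul', star_sub, star_sub, star_sub, su, sv, sw]
  have e : (1 / v - 1 / u) * (1 / u - 1 / w) * (1 / w - 1 / v)
      = (u - v) * (v - w) * (w - u) / (u * v * w) ^ 2 := by
    field_simp
  rw [e, h3]
  norm_num

/-- negative discriminant: the roots are unimodular -/
theorem thb_norm (u v w T : ℂ) (h1 : u + v + w = T) (h2 : u * v + v * w + w * u = -star T)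
    (h3 : u * v * w = -1) (d : ℝ) (hd : d < 0)
    (hP : ((u - v) * (v - w) * (w - u)) ^ 2 = (d : ℂ)) : star u * u = 1 := by
  have hu0 : u ≠ 0 := fun h => by
    rw [h, zero_mul, zero_mul] at h3
    norm_num at h3
  have su0 : star u ≠ 0 := star_ne_zero.mpr hu0
  -- the product is not real
  have hreal : star ((u - v) * (v - w) * (w - u)) ≠ (u - v) * (v - w) * (w - u) := by
    intro h
    have h' : ((((u - v) * (v - w) * (w - u)).re : ℝ) : ℂ) = (u - v) * (v - w) * (w - u) :=
      Complex.conj_eq_iff_re.mp h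
    rw [← h'] at hP
    have h2 : (((u - v) * (v - w) * (w - u)).re) ^ 2 = d := by exact_mod_cast hP
    nlinarith [sq_nonneg (((u - v) * (v - w) * (w - u)).re)]
  have cub : ∀ t : ℂ, (t - u) * (t - v) * (t - w) = t ^ 3 - T * t ^ 2 - star T * t + 1 := by
    intro t
    have e : (t - u) * (t - v) * (t - w)
        = t ^ 3 - (u + v + w) * t ^ 2 + (u * v + v * w + w * u) * t - u * v * w := by ring
    rw [e, h1, h2, h3]
    ring
  have hu : u ^ 3 - T * u ^ 2 - star T * u + 1 = 0 := by rw [← cub u]; ring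
  have hs : star u ^ 3 - star T * star u ^ 2 - T * star u + 1 = 0 := by
    have h := congrArg star hu
    simpa only [star_add, star_sub, star_mul', star_pow, star_star, star_one, star_zero] using h
  have ht : (1 / star u - u) * (1 / star u - v) * (1 / star u - w) = 0 := by
    rw [cub]
    field_simp
    linear_combination hs
  rcases thb_root_of _ _ _ _ ht with h | h | h
  · have h' : star u * (1 / star u) = 1 := by field_simp
    rwa [h] at h'
  · exfalso
    apply hreal
    apply thb_real u v w hu0 _ h3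
    rw [← h]
    field_simp
  · exfalso
    apply hreal
    have h4 := thb_real u w v hu0 (by rw [← h]; field_simp) (by linear_combination h3)
    have e : (u - v) * (v - w) * (w - u) = -((u - w) * (w - v) * (v - u)) := by ring
    rw [e, star_neg, h4]

theorem thb_hf_comb (a b c : ℂ) (x y z n : V3) :
    hf (a • x + b • y + c • z) n = a * hf x n + b * hf y n + c * hf z n := by
  simp only [hf, Pi.add_apply, Pi.smul_apply, smul_eq_mul]
  ring

/-- the matrix of `I₁ I₂ I₃` on the polar vectors -/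
def thbM (a a' b b' c c' : ℂ) : Matrix (Fin 3) (Fin 3) ℂ :=
  !![-1 + 4 * a * a' - 8 * a' * b' * c' + 4 * c * c', 2 * a' - 8 * a' * b * b' + 4 * b * c,
      -4 * a' * b' + 2 * c;
    -2 * a + 4 * b' * c', -1 + 4 * b * b', 2 * b';
    -2 * c', -2 * b, -1]

theorem thb_act (e : Fin 3 → V3) (he : ∀ i, hf (e i) (e i) = 1) (v : V3) :
    act e [0, 1, 2] (v 0 • e 0 + v 1 • e 1 + v 2 • e 2) =
      (thbM (hf (e 0) (e 1)) (hf (e 1) (e 0)) (hf (e 1) (e 2)) (hf (e 2) (e 1)) (hf (e 2) (e 0))
        (hf (e 0) (e 2))).mulVec v 0 • e 0 +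
      (thbM (hf (e 0) (e 1)) (hf (e 1) (e 0)) (hf (e 1) (e 2)) (hf (e 2) (e 1)) (hf (e 2) (e 0))
        (hf (e 0) (e 2))).mulVec v 1 • e 1 +
      (thbM (hf (e 0) (e 1)) (hf (e 1) (e 0)) (hf (e 1) (e 2)) (hf (e 2) (e 1)) (hf (e 2) (e 0))
        (hf (e 0) (e 2))).mulVec v 2 • e 2 := by
  set a := hf (e 0) (e 1)
  set a' := hf (e 1) (e 0)
  set b := hf (e 1) (e 2)
  set b' := hf (e 2) (e 1)
  set c := hf (e 2) (e 0)
  set c' := hf (e 0) (e 2)
  have r2 : ∀ x y z : ℂ, refl (e 2) (x • e 0 + y • e 1 + z • e 2)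
      = x • e 0 + y • e 1 + (-z - 2 * (x * c' + y * b)) • e 2 := by
    intro x y z
    unfold refl
    rw [thb_hf_comb, he 2]
    module
  have r1 : ∀ x y z : ℂ, refl (e 1) (x • e 0 + y • e 1 + z • e 2)
      = x • e 0 + (-y - 2 * (x * a + z * b')) • e 1 + z • e 2 := by
    intro x y z
    unfold refl
    rw [thb_hf_comb, he 1]
    module
  have r0 : ∀ x y z : ℂ, refl (e 0) (x • e 0 + y • e 1 + z • e 2)
      = (-x - 2 * (y * a' + z * c)) • e 0 + y • e 1 + z • e 2 := by
    intro x y z
    unfold refl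
    rw [thb_hf_comb, he 0]
    module
  change refl (e 0) (refl (e 1) (refl (e 2) (v 0 • e 0 + v 1 • e 1 + v 2 • e 2))) = _
  rw [r2, r1, r0]
  simp only [thbM, Matrix.mulVec, dotProduct, Fin.sum_univ_three, Matrix.of_apply,
    Matrix.cons_val', Matrix.cons_val_zero, Matrix.cons_val_one, Matrix.cons_val,
    Matrix.cons_val_fin_one]
  congr 1
  · congr 1
    · congr 1
      ring
    · congr 1
      ring
  · congr 1
    ring

/-- eigenvectors for the roots of the characteristic polynomial -/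
theorem thb_eig (e : Fin 3 → V3) (he : ∀ i, hf (e i) (e i) = 1) (hl : LinearIndependent ℂ e)
    (μ : ℂ) (hμ : μ ^ 3 - (-3 + 4 * (hf (e 0) (e 1) * hf (e 1) (e 0) + hf (e 1) (e 2) *
        hf (e 2) (e 1) + hf (e 2) (e 0) * hf (e 0) (e 2)) - 8 * (hf (e 1) (e 0) * hf (e 2) (e 1)
        * hf (e 0) (e 2))) * μ ^ 2 - (-3 + 4 * (hf (e 0) (e 1) * hf (e 1) (e 0) + hf (e 1) (e 2) *
        hf (e 2) (e 1) + hf (e 2) (e 0) * hf (e 0) (e 2)) - 8 * (hf (e 0) (e 1) * hf (e 1) (e 2)
        * hf (e 2) (e 0))) * μ + 1 = 0) : ∃ x : V3, x ≠ 0 ∧ act e [0, 1, 2] x = μ • x := by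
  have h := thb_act e he
  set a := hf (e 0) (e 1)
  set a' := hf (e 1) (e 0)
  set b := hf (e 1) (e 2)
  set b' := hf (e 2) (e 1)
  set c := hf (e 2) (e 0)
  set c' := hf (e 0) (e 2)
  have hdet : (thbM a a' b b' c c' - μ • (1 : Matrix (Fin 3) (Fin 3) ℂ)).det = 0 := by
    have e1 : (1 : Matrix (Fin 3) (Fin 3) ℂ) = !![1, 0, 0; 0, 1, 0; 0, 0, 1] := by
      ext i j
      fin_cases i <;> fin_cases j <;> simp
    rw [Matrix.det_fin_three, e1]
    simp only [thbM, Matrix.sub_apply, Matrix.smul_apply, Matrix.of_apply, Matrix.cons_val',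
      Matrix.cons_val_zero, Matrix.cons_val_one, Matrix.cons_val, Matrix.cons_val_fin_one,
      smul_eq_mul, mul_one, mul_zero, sub_zero]
    linear_combination -hμ
  obtain ⟨v, hv0, hv⟩ := Matrix.exists_mulVec_eq_zero_iff.mpr hdet
  refine ⟨v 0 • e 0 + v 1 • e 1 + v 2 • e 2, ?_, ?_⟩
  · intro h0
    apply hv0
    have := Fintype.linearIndependent_iff.mp hl v (by rw [Fin.sum_univ_three]; exact h0)
    funext i
    exact this i
  · have hv' : ∀ i, (thbM a a' b b' c c').mulVec v i = μ * v i := by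
      intro i
      have h1 := congrFun hv i
      rw [Matrix.sub_mulVec, Matrix.smul_mulVec, Matrix.one_mulVec] at h1
      simpa [sub_eq_zero] using h1
    rw [h v, hv' 0, hv' 1, hv' 2]
    module

theorem thb_unit (e : Fin 3 → V3) (he : ∀ i, hf (e i) (e i) = 1) (x y : V3) :
    hf (act e [0, 1, 2] x) (act e [0, 1, 2] y) = hf x y := by
  have r : ∀ i (x y : V3), hf (refl (e i) x) (refl (e i) y) = hf x y := by
    intro i x y
    rw [tha_refl_adj, tha_refl_invol _ _ (he i)]
  change hf (refl (e 0) (refl (e 1) (refl (e 2) x))) (refl (e 0) (refl (e 1) (refl (e 2) y))) = _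
  rw [r, r, r]

/-- eigenvectors of different unimodular eigenvalues are orthogonal -/
theorem thb_orth (e : Fin 3 → V3) (he : ∀ i, hf (e i) (e i) = 1) (x y : V3) (u v : ℂ)
    (hx : act e [0, 1, 2] x = u • x) (hy : act e [0, 1, 2] y = v • y) (hv : star v * v = 1)
    (huv : u ≠ v) : hf x y = 0 := by
  have h := thb_unit e he x y
  rw [hx, hy] at h
  have h1 : hf (u • x) (v • y) = u * star v * hf x y := by
    simp only [hf, Pi.smul_apply, smul_eq_mul, star_mul']
    ring
  rw [h1] at h
  have h2 : (u - v) * hf x y = 0 := by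
    linear_combination v * h + (-u * hf x y) * hv
  rcases mul_eq_zero.mp h2 with h3 | h3
  · exact absurd (sub_eq_zero.mp h3) huv
  · exact h3

/-- three orthogonal nonzero vectors: one of them is negative -/
theorem thb_neg (x y z : V3) (hl : LinearIndependent ℂ ![x, y, z]) (hxy : hf x y = 0)
    (hyz : hf y z = 0) (hzx : hf z x = 0) : Neg x ∨ Neg y ∨ Neg z := by
  by_contra hcon
  push Not at hcon
  obtain ⟨hx, hy, hz⟩ := hcon
  unfold Neg at hx hy hz
  have hyx : hf y x = 0 := by rw [← tha_star, hxy, star_zero]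
  have hzy : hf z y = 0 := by rw [← tha_star, hyz, star_zero]
  have hxz : hf x z = 0 := by rw [← tha_star, hzx, star_zero]
  have hb : Submodule.span ℂ (Set.range ![x, y, z]) = ⊤ :=
    hl.span_eq_top_of_card_eq_finrank' (by simp)
  have hm : (![0, 0, 1] : V3) ∈ Submodule.span ℂ (Set.range ![x, y, z]) := by
    rw [hb]; trivial
  obtain ⟨c, hc⟩ := (Submodule.mem_span_range_iff_exists_fun ℂ).mp hm
  rw [Fin.sum_univ_three] at hc
  simp only [Matrix.cons_val_zero, Matrix.cons_val_one, Matrix.cons_val] at hc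
  have h1 : hf (![0, 0, 1] : V3) ![0, 0, 1] = -1 := by
    simp [hf]
  have h2 : hf (![0, 0, 1] : V3) ![0, 0, 1]
      = (c 0 * star (c 0)) * hf x x + (c 1 * star (c 1)) * hf y y
        + (c 2 * star (c 2)) * hf z z := by
    have hn : ∀ n : V3, hf n (c 0 • x + c 1 • y + c 2 • z)
        = star (c 0) * hf n x + star (c 1) * hf n y + star (c 2) * hf n z := by
      intro n
      simp only [hf, Pi.add_apply, Pi.smul_apply, smul_eq_mul, star_add, star_mul']
      ring
    rw [← hc, hn, thb_hf_comb, thb_hf_comb, thb_hf_comb, hxy, hyz, hzx, hyx, hzy, hxz]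
    ring
  rw [h1] at h2
  have hre : ∀ (a : ℂ) (n : V3), ((a * star a) * hf n n).re = Complex.normSq a * (hf n n).re := by
    intro a n
    have : a * star a = ((Complex.normSq a : ℝ) : ℂ) := Complex.mul_conj a
    rw [this, Complex.re_ofReal_mul]
  have h3 := congrArg Complex.re h2
  rw [Complex.add_re, Complex.add_re, hre, hre, hre] at h3
  have a1 := mul_nonneg (Complex.normSq_nonneg (c 0)) (not_lt.mp (by simpa using hx))
  have a2 := mul_nonneg (Complex.normSq_nonneg (c 1)) (not_lt.mp (by simpa using hy))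
  have a3 := mul_nonneg (Complex.normSq_nonneg (c 2)) (not_lt.mp (by simpa using hz))
  simp at h3
  linarith

theorem thb_refl_add (n x y : V3) : refl n (x + y) = refl n x + refl n y := by
  unfold refl
  have : hf (x + y) n = hf x n + hf y n := by
    simp only [hf, Pi.add_apply]
    ring
  rw [this]
  module

theorem thb_refl_smul (n x : V3) (a : ℂ) : refl n (a • x) = a • refl n x := by
  unfold refl
  have : hf (a • x) n = a * hf x n := by
    simp only [hf, Pi.smul_apply, smul_eq_mul]
    ring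
  rw [this]
  module

/-- `I₁ I₂ I₃` as a linear map -/
def thbL (e : Fin 3 → V3) : Module.End ℂ V3 where
  toFun := act e [0, 1, 2]
  map_add' x y := by
    change refl (e 0) (refl (e 1) (refl (e 2) (x + y))) = refl (e 0) (refl (e 1) (refl (e 2) x))
      + refl (e 0) (refl (e 1) (refl (e 2) y))
    rw [thb_refl_add, thb_refl_add, thb_refl_add]
  map_smul' a x := by
    change refl (e 0) (refl (e 1) (refl (e 2) (a • x)))
      = a • refl (e 0) (refl (e 1) (refl (e 2) x))
    rw [thb_refl_smul, thb_refl_smul, thb_refl_smul]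

theorem thb_inj (u v w : ℂ) (huv : u ≠ v) (hvw : v ≠ w) (hwu : w ≠ u) :
    Function.Injective (![u, v, w] : Fin 3 → ℂ) := by
  intro i j hij
  fin_cases i <;> fin_cases j <;> simp_all

theorem st_THB : ST_THB := by
  intro p q r hp hq hr e he z hz htr hx
  have kp : ∀ m : ℕ, 3 ≤ m → 0 < Real.cos (Real.pi / m) := by
    intro m hm
    have hm' : (3 : ℝ) ≤ m := by exact_mod_cast hm
    have hpi := Real.pi_pos
    have h1 : Real.pi / m ≤ Real.pi / 3 := div_le_div_of_nonneg_left hpi.le (by norm_num) hm'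
    have h2 : 0 < Real.pi / m := by positivity
    apply Real.cos_pos_of_mem_Ioo
    constructor <;> linarith
  have hc1 := kp p hp
  have hc2 := kp q hq
  have hc3 := kp r hr
  have a1 := he.ang1
  have a2 := he.ang2
  have a3 := he.ang3
  have hfB : fB p q r (2 * z.re) = fBx ((2 * Real.cos (Real.pi / p)) ^ 2
      + (2 * Real.cos (Real.pi / q)) ^ 2 + (2 * Real.cos (Real.pi / r)) ^ 2 - 3)
      (2 * Real.cos (Real.pi / p) * (2 * Real.cos (Real.pi / q)) *
        (2 * Real.cos (Real.pi / r))) (2 * z.re) := by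
    simp [fB, kk, mm, Kp]
  rw [hfB] at hx
  set c1 := Real.cos (Real.pi / p) with hc1d
  set c2 := Real.cos (Real.pi / q) with hc2d
  set c3 := Real.cos (Real.pi / r) with hc3d
  have htn : ‖trip e‖ = c1 * c2 * c3 := by
    unfold trip
    rw [norm_mul, norm_mul, a1, a2, a3]
  -- trace
  set S : ℝ := (2 * c1) ^ 2 + (2 * c2) ^ 2 + (2 * c3) ^ 2 - 3 with hS
  set K : ℝ := 2 * c1 * (2 * c2) * (2 * c3) with hK
  have hsq : ∀ i j, hf (e i) (e j) * hf (e j) (e i) = ((‖hf (e i) (e j)‖ ^ 2 : ℝ) : ℂ) := by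
    intro i j
    rw [← tha_star (e i) (e j)]
    have := Complex.mul_conj (hf (e i) (e j))
    rw [Complex.normSq_eq_norm_sq] at this
    exact this
  have hz' : z * star z = 1 := by
    have := Complex.mul_conj z
    rw [Complex.normSq_eq_norm_sq, hz] at this
    simpa using this
  have htr' : hf (e 0) (e 1) * hf (e 1) (e 2) * hf (e 2) (e 0) = -((c1 * c2 * c3 : ℝ) : ℂ) * z := by
    rw [htn] at htr
    have : trip e = hf (e 0) (e 1) * hf (e 1) (e 2) * hf (e 2) (e 0) := rfl
    rw [← this]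
    linear_combination -htr
  have htr'' : hf (e 1) (e 0) * hf (e 2) (e 1) * hf (e 0) (e 2)
      = -((c1 * c2 * c3 : ℝ) : ℂ) * star z := by
    have := congrArg star htr'
    rw [star_mul', star_mul', tha_star, tha_star, tha_star, star_mul', star_neg] at this
    rw [this]
    have : star ((c1 * c2 * c3 : ℝ) : ℂ) = ((c1 * c2 * c3 : ℝ) : ℂ) := Complex.conj_ofReal _
    rw [this]
  set T : ℂ := (S : ℂ) + K * star z with hT
  have hT' : star T = (S : ℂ) + K * z := by
    rw [hT, star_add, star_mul', star_star]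
    have h1 : star (S : ℂ) = (S : ℂ) := Complex.conj_ofReal _
    have h2 : star (K : ℂ) = (K : ℂ) := Complex.conj_ofReal _
    rw [h1, h2]
  have e1 : -3 + 4 * (hf (e 0) (e 1) * hf (e 1) (e 0) + hf (e 1) (e 2) *
        hf (e 2) (e 1) + hf (e 2) (e 0) * hf (e 0) (e 2)) - 8 * (hf (e 1) (e 0) * hf (e 2) (e 1)
        * hf (e 0) (e 2)) = T := by
    rw [hsq, hsq, hsq, htr'', a1, a2, a3, hT, hS, hK]
    push_cast
    ring
  have e2 : -3 + 4 * (hf (e 0) (e 1) * hf (e 1) (e 0) + hf (e 1) (e 2) *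
        hf (e 2) (e 1) + hf (e 2) (e 0) * hf (e 0) (e 2)) - 8 * (hf (e 0) (e 1) * hf (e 1) (e 2)
        * hf (e 2) (e 0)) = star T := by
    rw [hsq, hsq, hsq, htr', a1, a2, a3, hT', hS, hK]
    push_cast
    ring
  obtain ⟨u, v, w, r1, r2, r3⟩ := thb_roots T (-star T) (-1)
  have hP : ((u - v) * (v - w) * (w - u)) ^ 2 = ((fBx S K (2 * z.re) : ℝ) : ℂ) := by
    rw [thb_disc u v w T (star T) r1 r2 r3]
    have hx2 : ((2 * z.re : ℝ) : ℂ) = z + star z := by
      have := Complex.add_conj z
      push_cast at this ⊢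
      exact this.symm
    unfold fBx
    set X : ℝ := 2 * z.re
    push_cast
    rw [hx2, hT', hT]
    linear_combination (-24 * (S : ℂ) * K ^ 2 + 2 * S * K ^ 3 * (z + star z) + 2 * S ^ 2 * K ^ 2
      + 18 * K ^ 2 - 12 * K ^ 3 * (z + star z) + K ^ 4 * (z * star z + 1)) * hz'
  have cub : ∀ t : ℂ, (t - u) * (t - v) * (t - w) = t ^ 3 - T * t ^ 2 - star T * t + 1 := by
    intro t
    have e : (t - u) * (t - v) * (t - w)
        = t ^ 3 - (u + v + w) * t ^ 2 + (u * v + v * w + w * u) * t - u * v * w := by ring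
    rw [e, r1, r2, r3]
    ring
  have nu := thb_norm u v w T r1 r2 r3 _ hx hP
  have nv := thb_norm v w u T (by rw [← r1]; ring) (by rw [← r2]; ring) (by rw [← r3]; ring) _ hx
    (by rw [← hP]; ring)
  have nw := thb_norm w u v T (by rw [← r1]; ring) (by rw [← r2]; ring) (by rw [← r3]; ring) _ hx
    (by rw [← hP]; ring)
  have hP0 : (u - v) * (v - w) * (w - u) ≠ 0 := by
    intro h
    rw [h] at hP
    have : (fBx S K (2 * z.re) : ℝ) = 0 := by
      have h2 : ((fBx S K (2 * z.re) : ℝ) : ℂ) = 0 := by rw [← hP]; norm_num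
      exact_mod_cast h2
    linarith
  have huv : u ≠ v := fun h => hP0 (by rw [h]; ring)
  have hvw : v ≠ w := fun h => hP0 (by rw [h]; ring)
  have hwu : w ≠ u := fun h => hP0 (by rw [h]; ring)
  obtain ⟨xu, xu0, hxu⟩ := thb_eig e he.unit he.indep u (by rw [e1, e2, ← cub u]; ring)
  obtain ⟨xv, xv0, hxv⟩ := thb_eig e he.unit he.indep v (by rw [e1, e2, ← cub v]; ring)
  obtain ⟨xw, xw0, hxw⟩ := thb_eig e he.unit he.indep w (by rw [e1, e2, ← cub w]; ring)
  have o1 := thb_orth e he.unit xu xv u v hxu hxv nv huv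
  have o2 := thb_orth e he.unit xv xw v w hxv hxw nw hvw
  have o3 := thb_orth e he.unit xw xu w u hxw hxu nu hwu
  have hl : LinearIndependent ℂ ![xu, xv, xw] := by
    apply Module.End.eigenvectors_linearIndependent' (thbL e) ![u, v, w]
    · exact thb_inj u v w huv hvw hwu
    · intro i
      fin_cases i
      · exact ⟨Module.End.mem_eigenspace_iff.mpr hxu, xu0⟩
      · exact ⟨Module.End.mem_eigenspace_iff.mpr hxv, xv0⟩
      · exact ⟨Module.End.mem_eigenspace_iff.mpr hxw, xw0⟩
  rcases thb_neg xu xv xw hl o1 o2 o3 with h | h | h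
  · exact ⟨xu, h, u, hxu⟩
  · exact ⟨xv, h, v, hxv⟩
  · exact ⟨xw, h, w, hxw⟩

end Pool.Agent.Helper6.MONO
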