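import Pool.Agent.Helper39.CX.NCM

/-!
Families of runs of length two replaced by ONE EXTRA FORM per state: `F s` contains the image of
every region under a run of length two, is mapped into itself by runs of length two and is
contained in the region of type `two`. Only tests of single runs and identity blocks occur.
-/

set_option autoImplicit false
noncomputable section
namespace Pool.Agent.Helper7.BF

open Pool.Agent.Helper86.C75 (Z)
open Pool.Agent.Helper86.CX hiding gM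
open Pool.Agent.Helper90.C75 (Wts wq avg bt)
open Pool.Agent.Helper90.KMO
open Pool.Agent.Helper21.KCE (KP andB_tt)
open Pool.Agent.Helper6.MONO (V3 RV2 TCert kk mm Kp RMb omS lamS zw DTH sD xA xA_gt xA_swap xA_le2
  xA_max kb kap_enc LNI_mm)
open Pool.Agent.Helper6.MONO.QTR (V0 e0 TCell tcell_of_z)
open Pool.Agent.Helper21.SUP (GS DG gM sD_cons sD_nil gM_append DG_nx)
open Pool.Agent.Helper21.SUP renaming nx → nxs
open Pool.Agent.Helper39.SLT (T4 ML)
open Pool.Agent.Helper6.MTC (RK)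
open Pool.Agent.Helper6.MID
open Pool.Agent.Helper6.KRL
open Pool.Agent.Helper6.PRG
open Pool.Agent.Helper6.CEL
open Pool.Agent.Helper6.KPF
open Pool.Agent.Helper6.PIE
open Pool.Agent.Helper17.KNI (IE chkI chkI_point)
open Pool.Agent.Helper39.NCL
open Complex ComplexConjugate

/-- the blocks of the extra forms at the state number `i`; `fn i` is the number of the form -/
def covBs (p q r : ℕ) (fn : ℕ → ℕ) (G : Prog) (il : List IE) (i : ℕ) : Bool :=
  hasR p q r G i 2 (fn (giS (nxs (gsF i) 2))) (fn i) &&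
    (hasI il (kidx p q r (gsF i) T4.two) (fn i) &&
      (tys (ML p q r (gsF i))).all fun T =>
        if T.low (ML p q r (gsF i)) ≤ 2 then
          (if T = T4.two then true else
            hasR p q r G i 2 (fn (giS (nxs (gsF i) 2))) (kidx p q r (gsF i) T)) else true)

/-- THE EXTRA FORMS cover the families of runs of length two -/
def covBF (p q r : ℕ) (fn : ℕ → ℕ) (G : Prog) (il : List IE) : Bool :=
  (List.range 6).all (covBs p q r fn G il)

theorem covBF_at {p q r : ℕ} {G : Prog} {il : List IE} {fn : ℕ → ℕ}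
    (h : covBF p q r fn G il = true)
    {s : GS} (hs : DG s) :
    hasR p q r G (giS s) 2 (fn (giS (nxs s 2))) (fn (giS s)) = true ∧
      hasI il (kidx p q r s T4.two) (fn (giS s)) = true ∧
      ∀ T : T4, T.ok (ML p q r s) → T.low (ML p q r s) ≤ 2 → T ≠ T4.two →
        hasR p q r G (giS s) 2 (fn (giS (nxs s 2))) (kidx p q r s T) = true := by
  obtain ⟨e, hi⟩ := gsF_giS s hs
  unfold covBF at h
  rw [List.all_eq_true] at h
  have h3 := h (giS s) (List.mem_range.2 hi)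
  unfold covBs at h3
  rw [e, Bool.and_eq_true, Bool.and_eq_true, List.all_eq_true] at h3
  refine ⟨h3.1, h3.2.1, fun T hT hl h2 => ?_⟩
  have h4 := h3.2.2 T (mem_tys hT)
  rw [if_pos hl, if_neg h2] at h4
  exact h4

/-- the induction over the number of runs -/
theorem bf_all {p q r : ℕ} {z : ℂ} {K : ℕ → Hm ℝ} {G : Prog} {il : List IE}
    {fn : ℕ → ℕ} (hc : covBF p q r fn G il = true)
    (hR : ∀ s, DG s → ∀ k k' : ℕ, hasR p q r G (giS s) 2 k k' = true → ∀ v : Fin 3 → ℂ,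
      0 < ev (K k') v → 0 < ev (K k) ((RMb p q r s 2 (zw z)).mulVec v))
    (hI : ∀ k k' : ℕ, hasI il k k' = true → ∀ v : Fin 3 → ℂ, 0 < ev (K k') v → 0 < ev (K k) v) :
    ∀ s, DG s → ∀ T : T4, T.ok (ML p q r s) → T.low (ML p q r s) ≤ 2 → T ≠ T4.two → ∀ k : ℕ,
      ∀ v, 0 < ev (K (kidx p q r s T)) v →
        0 < ev (K (kidx p q r (sD s (List.replicate (k + 1) 2)) T4.two))
          ((gM (RMb p q r) s (List.replicate (k + 1) 2) (zw z)).mulVec v) := by
  intro s h T hT hl h2 k v hv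
  have hn : DG (nxs s 2) := DG_nx s 2 h
  have h3 := hR s h _ _ ((covBF_at hc h).2.2 T hT hl h2) v hv
  have h4 := single_all (RM := RMb p q r) (w := zw z) (x := 2)
    (T := fun s => {v : Fin 3 → ℂ | 0 < ev (K (fn (giS s))) v})
    (S := {s | DG s}) (fun s hs => DG_nx s 2 hs)
    (fun s hs v hv => hR s hs _ _ (covBF_at hc hs).1 v hv) k (nxs s 2) hn _ h3
  rw [List.replicate_succ]
  have e : (2 :: List.replicate k 2 : List ℕ) = [2] ++ List.replicate k 2 := rfl
  rw [sD_cons, e, gM_append, ← Matrix.mulVec_mulVec, gM_one]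
  have e2 : sD s [2] = nxs s 2 := by rw [sD_cons, sD_nil]
  rw [e2]
  have hD : DG (sD (nxs s 2) (List.replicate k 2)) :=
    Pool.Agent.Helper39.SLT.DG_sD' (List.replicate k 2) _ hn
  exact hI _ _ (covBF_at hc hD).2.1 _ h4

theorem mm9 {a b c : ℕ} (ha : a ≤ 9) (hb : b ≤ 9) (hc : c ≤ 9) :
    ∀ i j : Fin 3, i ≠ j → mm a b c i j ≤ 9 := mm_le ha hb hc

variable {a b c : ℕ} {x0 : ℝ} {X : Z} {gb : Bool} {W0 W1 W2 : WN} {G : Prog} {il : List IE}
  {sl : List ℕ} {le : List LE}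

/-- THE STATEMENT OF THE FAMILIES OF RUNS OF LENGTH TWO of a cell from the extra forms -/
theorem bcell_of (hX : FixN a b c x0 X gb W0 W1 W2 G il sl le) {fn : ℕ → ℕ}
    (hc : covBF a b c fn G il = true) {d : CellD} (hI : chkI [d.K] d.L il = true) :
    BCell a b c x0 X G d := by
  intro t h0 h1 z y hy hz hui hzx ht hP s hs T hT hl h2 k v hv
  have hz1 := z_ne hX.x1 hzx
  refine bf_all (K := fun k => KP 1 w1 t (kfs [d.K] k)) hc ?_ ?_ s hs T hT hl h2 k v hv
  · intro s hs k k' hb v hv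
    unfold hasR at hb
    rw [(gsF_giS s hs).1] at hb
    have h3 := LNI_mm hX.ha.1 hX.hb.1 hX.hc.1 _ _ hs.1
    exact run_of hX.ha.1 hX.hb.1 hX.hc.1 (mm9 hX.ha.2 hX.hb.2 hX.hc.2) hz hz1 hP.K hs le_rfl
      (by omega) hb v hv
  · intro k k' hb v hv
    obtain ⟨x, hx, hk, y, hy, hk'⟩ := hasI_iff hb
    rw [← hk]
    rw [← hk'] at hv
    exact chkI_pos h0 h1 hI x hx y hy v hv

theorem chkI_of_chkN {F : FT} {f0 f1 f2 : Bool} {k0 k1 k2 : Mo} {C : Cls} {d : ND}
    (H : chkN F f0 f1 f2 k0 k1 k2 C G X sl le il d = true) : chkI [d.c.K] d.c.L il = true := by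
  obtain ⟨-, HI⟩ := andB_tt H
  exact (andB_tt HI).1

theorem chkI_of_chkN3 {F : FT} {f0 f1 f2 : Bool} {k0 k1 k2 : Mo} {C : Cls} {d : ND}
    (H : chkN3 F f0 f1 f2 k0 k1 k2 C G X sl le il d = true) : chkI [d.c.K] d.c.L il = true := by
  obtain ⟨-, HI⟩ := andB_tt H
  exact (andB_tt HI).1

/-- a property of all cells of a chain -/
theorem pcN_all {f : ND → Bool} {P : ND → Prop} (hf : ∀ d, f d = true → P d) {e : ℕ} :
    ∀ (l : List ND) (y : ℕ), pcN f e l y = true → ∀ d ∈ l, P d := by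
  intro l
  induction l with
  | nil =>
    intro y _ d hd
    cases hd
  | cons d l ih =>
    intro y H u hu
    obtain ⟨-, H⟩ := andB_tt H
    obtain ⟨-, H⟩ := andB_tt H
    obtain ⟨h3, h4⟩ := andB_tt H
    rcases List.mem_cons.1 hu with rfl | hu
    · exact hf _ h3
    · exact ih d.c.yb h4 u hu

/-- A MODULE OF NEAR CELLS of a class of type A with a label `3`, runs of length two by the extra
forms with the numbers `fn i` -/
theorem near_BF3 {a b c : ℕ} (hh : 3 ≤ a ∧ 3 ≤ b ∧ a ≤ c ∧ b ≤ c ∧ c ≤ 9)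
    (hne : ¬ (a = 3 ∧ b = 3 ∧ c = 3)) {X : Z}
    (hX : zv X = Pool.Agent.Helper6.MONO.XTH.XA (min a b) (max a b) c) {F : FT} (hF : FamOK F)
    {gb : Bool} {W0 W1 W2 : WN} {G : Prog} {il : List IE} {sl : List ℕ} {le : List LE}
    (hm : modN a b c gb W0 W1 W2 G il sl le = true) {fn : ℕ → ℕ}
    (hcB : covBF a b c fn G il = true) (hcL : coverL a b c G = true)
    {f0 f1 f2 : Bool} (g0 : f0 = W0.f) (g1 : f1 = W1.f) (g2 : f2 = W2.f) {k0 k1 k2 : Mo}
    (e0 : k0 = cstM (nat_lit 1) (kb a) (nat_lit 1)) (e1 : k1 = cstM (nat_lit 1) (kb b) (nat_lit 1))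
    (e2 : k2 = cstM (nat_lit 1) (kb c) (nat_lit 1)) {l : List ND} (hl : l ≠ []) {As : List NA}
    (hs : sideL (sideN W0 W1 W2 le) l As = true) {y e : ℕ}
    (H : chkPN3 F f0 f1 f2 k0 k1 k2 (mkCls (nat_lit 1) k0 k1 k2) G X sl le il e l y = true) :
    TCell a b c (xA a b c) ((y : ℝ) / 2 ^ 48) ((e : ℝ) / 2 ^ 48) :=
  near_A3 hh hne hX hF hm hcL g0 g1 g2 e0 e1 e2 hl hs (fun _ d hd =>
    bcell_of (modN_fix hh hne hX hm) hcB
      (pcN_all (P := fun d => chkI [d.c.K] d.c.L il = true) (fun _ h => chkI_of_chkN3 h) l y H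
        d hd)) H

/-- the same for a class without label `3` -/
theorem near_BF {a b c : ℕ} (hh : 4 ≤ a ∧ 4 ≤ b ∧ a ≤ c ∧ b ≤ c ∧ c ≤ 9) {X : Z}
    (hX : zv X = Pool.Agent.Helper6.MONO.XTH.XA (min a b) (max a b) c) {F : FT} (hF : FamOK F)
    {gb : Bool} {W0 W1 W2 : WN} {G : Prog} {il : List IE} {sl : List ℕ} {le : List LE}
    (hm : modN a b c gb W0 W1 W2 G il sl le = true) {fn : ℕ → ℕ}
    (hcB : covBF a b c fn G il = true) {f0 f1 f2 : Bool} (g0 : f0 = W0.f)
    (g1 : f1 = W1.f) (g2 : f2 = W2.f) {k0 k1 k2 : Mo}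
    (e0 : k0 = cstM (nat_lit 1) (kb a) (nat_lit 1)) (e1 : k1 = cstM (nat_lit 1) (kb b) (nat_lit 1))
    (e2 : k2 = cstM (nat_lit 1) (kb c) (nat_lit 1)) {l : List ND} (hl : l ≠ []) {As : List NA}
    (hs : sideL (sideN W0 W1 W2 le) l As = true) {y e : ℕ}
    (H : chkPN F f0 f1 f2 k0 k1 k2 (mkCls (nat_lit 1) k0 k1 k2) G X sl le il e l y = true) :
    TCell a b c (xA a b c) ((y : ℝ) / 2 ^ 48) ((e : ℝ) / 2 ^ 48) :=
  near_A hh hX hF hm g0 g1 g2 e0 e1 e2 hl hs (fun _ d hd =>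
    bcell_of (modN_fix ⟨by omega, by omega, hh.2.2⟩ (by omega) hX hm) hcB
      (pcN_all (P := fun d => chkI [d.c.K] d.c.L il = true) (fun _ h => chkI_of_chkN h) l y H
        d hd)) H

end Pool.Agent.Helper7.BF
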